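import Mathlib
import Pool.Agent.H22.ColoredPart

namespace Pool.Agent.Results.MP_26251e_nt.ThreeEight

open PowerSeries Finset Pool.Agent.H22.ColoredPart

noncomputable def r : PowerSeries ℤ := X * geo 1 ^ 2

theorem three_ne : (3 : ℕ) ≠ 0 := by decide

theorem A_eq : geo 1 ^ 3 * (1 - X ^ 3) = 1 + 3 * r := by
  have h := geo_one_mul
  rw [r]
  linear_combination (geo 1 ^ 2 * (1 + X + X ^ 2) + geo 1 * (1 - X) + 1) * h

theorem U_expand (g : PowerSeries ℤ) : U 3 (expand 3 three_ne g) = g := by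
  ext n
  rw [coeff_U, coeff_expand_mul]

theorem U_one : U 3 (1 : PowerSeries ℤ) = 1 := by
  have := U_expand 1
  rwa [map_one] at this

theorem U_X : U 3 (X : PowerSeries ℤ) = 0 := by
  ext n
  rw [coeff_U, coeff_X, if_neg (by omega), map_zero]

theorem U_X2 : U 3 (X ^ 2 : PowerSeries ℤ) = 0 := by
  ext n
  rw [coeff_U, coeff_X_pow, if_neg (by omega), map_zero]

theorem U_split (a b c : PowerSeries ℤ) : U 3 (expand 3 three_ne a + X * expand 3 three_ne b +
    X ^ 2 * expand 3 three_ne c) = a := by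
  rw [map_add, map_add, U_expand, U_mul_expand, U_mul_expand, U_X, U_X2]
  simp

theorem geo_rel : geo 1 = (1 + X + X ^ 2) * geo 3 := by
  have h := geo_one_mul
  have h3 := geo_mul 3 three_ne
  linear_combination (-geo 1) * h3 + ((1 + X + X ^ 2) * geo 3) * h

theorem expand_geo_one : expand 3 three_ne (geo 1) = geo 3 := by
  rw [expand_geo]

theorem U_r : U 3 r = 3 * r := by
  have : r = expand 3 three_ne (3 * r) + X * expand 3 three_ne ((1 + 2 * X) * geo 1 ^ 2) +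
      X ^ 2 * expand 3 three_ne ((2 + X) * geo 1 ^ 2) := by
    simp only [r, map_mul, map_pow, map_add, map_one, map_ofNat, expand_X, expand_geo_one]
    rw [geo_rel]
    ring
  conv_lhs => rw [this]
  rw [U_split]

theorem U_r2 : U 3 (r ^ 2) = 27 * r ^ 2 + 4 * r := by
  have : r ^ 2 = expand 3 three_ne ((4 * X + 19 * X ^ 2 + 4 * X ^ 3) * geo 1 ^ 4) +
      X * expand 3 three_ne ((10 * X + 16 * X ^ 2 + X ^ 3) * geo 1 ^ 4) +
      X ^ 2 * expand 3 three_ne ((1 + 16 * X + 10 * X ^ 2) * geo 1 ^ 4) := by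
    simp only [r, map_mul, map_pow, map_add, map_one, map_ofNat, expand_X, expand_geo_one]
    rw [geo_rel]
    ring
  conv_lhs => rw [this]
  rw [U_split, r]
  have h := geo_one_mul
  linear_combination (4 * X * geo 1 ^ 2 * (geo 1 * (1 - X) + 1)) * h

theorem r_cube : r ^ 3 = (1 + 3 * r) ^ 2 * expand 3 three_ne r := by
  rw [← A_eq]
  simp only [r, map_mul, map_pow, expand_X, expand_geo_one]
  have h3 := geo_mul 3 three_ne
  linear_combination (-(X ^ 3 * geo 1 ^ 6 * (geo 3 * (1 - X ^ 3) + 1))) * h3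

noncomputable def s : PowerSeries ℤ := 3 * r

theorem U_nat (c : ℕ) (f : PowerSeries ℤ) : U 3 ((c : PowerSeries ℤ) * f) = c * U 3 f := by
  rw [← nsmul_eq_mul, map_nsmul, nsmul_eq_mul]

theorem U_s : U 3 s = 3 * s := by
  have := U_nat 3 r
  rw [U_r] at this
  exact this

theorem U_s2 : U 3 (s ^ 2) = 27 * s ^ 2 + 12 * s := by
  have := U_nat 9 (r ^ 2)
  rw [U_r2] at this
  rw [s, show (3 * r) ^ 2 = ((9 : ℕ) : PowerSeries ℤ) * r ^ 2 by push_cast; ring, this]
  push_cast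
  ring

theorem U_rec (j : ℕ) : U 3 (s ^ (j + 3)) =
    9 * s * (U 3 (s ^ j) + 2 * U 3 (s ^ (j + 1)) + U 3 (s ^ (j + 2))) := by
  have h1 : s ^ (j + 3) = (s ^ j + ((2 : ℕ) : PowerSeries ℤ) * s ^ (j + 1) + s ^ (j + 2)) *
      expand 3 three_ne (27 * r) := by
    rw [map_mul, map_ofNat, s]
    push_cast
    linear_combination (27 * (3 * r) ^ j) * r_cube
  rw [h1, U_mul_expand, map_add, map_add, U_nat, s]
  push_cast
  ring

theorem U_pow (j : ℕ) : ∃ Q : Polynomial ℤ,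
    U 3 (s ^ (j + 1)) = 3 * s * Polynomial.aeval s Q := by
  induction j using Nat.strong_induction_on with
  | _ j ih =>
    match j, ih with
    | 0, _ => exact ⟨1, by simp [U_s]⟩
    | 1, _ => exact ⟨9 * Polynomial.X + 4, by
        rw [U_s2]
        simp only [map_add, map_mul, map_ofNat, Polynomial.aeval_X]
        ring⟩
    | 2, _ => exact ⟨81 * Polynomial.X ^ 2 + 54 * Polynomial.X + 3, by
        rw [U_rec 0, pow_zero, U_one, zero_add, pow_one, U_s, zero_add, U_s2]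
        simp only [map_add, map_mul, map_pow, map_ofNat, Polynomial.aeval_X]
        ring⟩
    | j + 3, ih =>
      obtain ⟨a, ha⟩ := ih j (by omega)
      obtain ⟨b, hb⟩ := ih (j + 1) (by omega)
      obtain ⟨c, hc⟩ := ih (j + 2) (by omega)
      refine ⟨9 * Polynomial.X * (a + 2 * b + c), ?_⟩
      rw [show j + 3 + 1 = j + 1 + 3 by ring, U_rec, ha, hb, hc]
      simp only [map_add, map_mul, map_ofNat, Polynomial.aeval_X]
      ring

theorem U_pow4 (j : ℕ) : ∃ Q : Polynomial ℤ,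
    U 3 (s ^ (j + 4)) = 27 * s * Polynomial.aeval s Q := by
  obtain ⟨a, ha⟩ := U_pow j
  obtain ⟨b, hb⟩ := U_pow (j + 1)
  obtain ⟨c, hc⟩ := U_pow (j + 2)
  refine ⟨Polynomial.X * (a + 2 * b + c), ?_⟩
  rw [show j + 4 = j + 1 + 3 by ring, U_rec, ha, hb, hc]
  simp only [map_add, map_mul, map_ofNat, Polynomial.aeval_X]
  ring

theorem U_poly (Q : Polynomial ℤ) : ∃ Q' : Polynomial ℤ,
    U 3 (s * Polynomial.aeval s Q) = 3 * s * Polynomial.aeval s Q' := by
  induction Q using Polynomial.induction_on' with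
  | add p q hp hq =>
    obtain ⟨a, ha⟩ := hp
    obtain ⟨b, hb⟩ := hq
    exact ⟨a + b, by rw [map_add, mul_add, map_add, ha, hb, map_add, mul_add]⟩
  | monomial n c =>
    obtain ⟨a, ha⟩ := U_pow n
    refine ⟨c • a, ?_⟩
    rw [Polynomial.aeval_monomial, ← Algebra.smul_def, mul_smul_comm, ← pow_succ', map_smul, ha,
      map_smul, mul_smul_comm]

theorem U_poly4 (Q : Polynomial ℤ) : ∃ Q' : Polynomial ℤ,
    U 3 (s ^ 4 * Polynomial.aeval s Q) = 27 * s * Polynomial.aeval s Q' := by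
  induction Q using Polynomial.induction_on' with
  | add p q hp hq =>
    obtain ⟨a, ha⟩ := hp
    obtain ⟨b, hb⟩ := hq
    exact ⟨a + b, by rw [map_add, mul_add, map_add, ha, hb, map_add, mul_add]⟩
  | monomial n c =>
    obtain ⟨a, ha⟩ := U_pow4 n
    refine ⟨c • a, ?_⟩
    rw [Polynomial.aeval_monomial, ← Algebra.smul_def, mul_smul_comm, ← pow_add, add_comm 4 n,
      map_smul, ha, map_smul, mul_smul_comm]

theorem dvd_coeff (k : ℕ) : ∀ (J n : ℕ) (Q : Polynomial ℤ),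
    (3 : ℤ) ^ (k + 1) ∣ coeff (3 ^ k * n) (genF 3 8 (J + k) * (s * Polynomial.aeval s Q)) := by
  induction k with
  | zero =>
    intro J n Q
    rw [show genF 3 8 (J + 0) * (s * Polynomial.aeval s Q) =
      C 3 * (genF 3 8 (J + 0) * (r * Polynomial.aeval s Q)) by rw [map_ofNat, s]; ring,
      coeff_C_mul]
    exact dvd_mul_right _ _
  | succ k ih =>
    intro J n Q
    rw [pow_succ' 3 k, mul_assoc, ← add_assoc, coeff_genF_mul 3 8 _ _ three_ne, A_eq]
    obtain ⟨Q', hQ'⟩ := U_poly ((1 + Polynomial.X) ^ 8 * Q)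
    have h1 : (1 + 3 * r) ^ 8 * (s * Polynomial.aeval s Q) =
        s * Polynomial.aeval s ((1 + Polynomial.X) ^ 8 * Q) := by
      simp only [map_add, map_mul, map_pow, map_one, Polynomial.aeval_X]
      rw [s]
      ring
    rw [h1, hQ', show genF 3 8 (J + k) * (3 * s * Polynomial.aeval s Q') =
      C 3 * (genF 3 8 (J + k) * (s * Polynomial.aeval s Q')) by rw [map_ofNat]; ring,
      coeff_C_mul, pow_succ' 3 (k + 1)]
    exact mul_dvd_mul_left _ (ih J n Q')

theorem b_eq : ∃ Q : Polynomial ℤ,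
    U 3 ((1 + 3 * r) ^ 8) - 1 = 27 * (s * Polynomial.aeval s Q) := by
  obtain ⟨Q, hQ⟩ := U_poly4 (70 + 56 * Polynomial.X + 28 * Polynomial.X ^ 2 +
    8 * Polynomial.X ^ 3 + Polynomial.X ^ 4)
  have h1 : (1 + 3 * r) ^ 8 = 1 + ((8 : ℕ) : PowerSeries ℤ) * s + ((28 : ℕ) : PowerSeries ℤ) * s ^ 2
      + ((56 : ℕ) : PowerSeries ℤ) * s ^ (0 + 3) + s ^ 4 * Polynomial.aeval s
      (70 + 56 * Polynomial.X + 28 * Polynomial.X ^ 2 +
        8 * Polynomial.X ^ 3 + Polynomial.X ^ 4 : Polynomial ℤ) := by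
    simp only [map_add, map_mul, map_pow, map_ofNat, Polynomial.aeval_X]
    rw [s]
    push_cast
    ring
  refine ⟨Q + 32 + 364 * Polynomial.X + 504 * Polynomial.X ^ 2, ?_⟩
  rw [h1, map_add, map_add, map_add, map_add, hQ, U_nat, U_nat, U_nat, U_rec 0, pow_zero, U_one,
    zero_add, pow_one, U_s, zero_add, U_s2]
  simp only [map_add, map_mul, map_pow, map_ofNat, Polynomial.aeval_X]
  push_cast
  ring

theorem step (k n : ℕ) : (3 : ℤ) ^ (k + 4) ∣ d 3 8 (3 * (3 ^ k * n)) - d 3 8 (3 ^ k * n) := by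
  obtain ⟨Q, hQ⟩ := b_eq
  rw [d_mul_sub 3 8 _ (3 * (3 ^ k * n) + 1 + k) (by norm_num) (by omega), A_eq, hQ,
    show genF 3 8 (3 * (3 ^ k * n) + 1 + k) * (27 * (s * Polynomial.aeval s Q)) =
      C 27 * (genF 3 8 (3 * (3 ^ k * n) + 1 + k) * (s * Polynomial.aeval s Q)) by
        rw [map_ofNat]; ring, coeff_C_mul,
    show (3 : ℤ) ^ (k + 4) = 27 * 3 ^ (k + 1) by ring]
  exact mul_dvd_mul_left _ (dvd_coeff k _ n Q)

theorem main (n : ℕ) : (3 : ℤ) ^ (padicValNat 3 n + 4) ∣ d 3 8 (3 ^ 2 * n) - d 3 8 n := by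
  obtain ⟨c, hc⟩ : 3 ^ padicValNat 3 n ∣ n := pow_padicValNat_dvd
  generalize padicValNat 3 n = k at hc ⊢
  subst hc
  have a := step k (3 * c)
  have b := step k c
  rw [show 3 * (3 ^ k * (3 * c)) = 3 ^ 2 * (3 ^ k * c) by ring,
    show 3 ^ k * (3 * c) = 3 * (3 ^ k * c) by ring] at a
  simpa using dvd_add a b

/-- The assertion of Q2 fails (for `p = 3`, `m = 8` equality never holds). -/
theorem result : ¬ ∀ p m : ℕ, p.Prime → 3 ≤ p → 1 ≤ m → m % p = p - 1 →
    (∀ n : ℕ, 1 ≤ n →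
      ((padicValNat p n + 4 - (if p = 3 then 1 else 0) : ℕ) : ℕ∞) ≤
        emultiplicity (p : ℤ) (d p m (p ^ 2 * n) - d p m n)) ∧
    Set.Infinite {n : ℕ | 1 ≤ n ∧ emultiplicity (p : ℤ) (d p m (p ^ 2 * n) - d p m n) =
      ((padicValNat p n + 4 - (if p = 3 then 1 else 0) : ℕ) : ℕ∞)} := by
  intro h
  obtain ⟨n, -, hn⟩ := (h 3 8 Nat.prime_three le_rfl (by norm_num) (by norm_num)).2.nonempty
  have h3 := pow_dvd_iff_le_emultiplicity.1 (main n)
  rw [show ((3 : ℕ) : ℤ) = 3 from rfl] at hn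
  rw [hn, if_pos rfl, Nat.cast_le] at h3
  omega

end Pool.Agent.Results.MP_26251e_nt.ThreeEight
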