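import Mathlib
import Pool.Agent.H22.ColoredPart

namespace Pool.Agent.Results.MP_26251e_nt.Wolstenholme

open PowerSeries Finset Pool.Agent.H22.ColoredPart

noncomputable def force {α : Type} (x : ℕ) (f : ℕ → α) : α :=
  Nat.rec (motive := fun _ => α) (f 0) (fun i _ => f (Nat.succ i)) x

theorem force_eq {α : Type} (x : ℕ) (f : ℕ → α) : force x f = f x := by
  cases x <;> rfl

noncomputable def loop (p M n : ℕ) : ℕ → ℕ → ℕ → ℕ → Bool :=
  Nat.rec (motive := fun _ => ℕ → ℕ → ℕ → ℕ → Bool)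
    (fun _ c1 c2 c3 => Nat.beq (c1 % p ^ 3) 0 && Nat.beq (c2 % p ^ 2) 0 && Nat.beq (c3 % p) 0)
    (fun i ih c0 c1 c2 c3 =>
      force (((i + 1) * c0) % M) fun e0 => force (((i + 1) * c1 + c0) % M) fun e1 =>
      force (((i + 1) * c2 + c1) % M) fun e2 => force (((i + 1) * c3 + c2) % M) fun e3 =>
      ih e0 e1 e2 e3) n

theorem loop_spec (p N n : ℕ) : ∀ c0 c1 c2 c3 : ℕ, loop p (p ^ 4) n c0 c1 c2 c3 = true →
    ((c0 : ZMod (p ^ 4)) + c1 * (p * N) + c2 * (p * N) ^ 2 + c3 * (p * N) ^ 3) *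
      ((p * N + 1).ascFactorial n : ℕ) = c0 * (n.factorial : ℕ) := by
  have h4 : (p : ZMod (p ^ 4)) ^ 4 = 0 := by
    rw [← Nat.cast_pow, ZMod.natCast_self]
  induction n with
  | zero =>
    intro c0 c1 c2 c3 h
    have h' : (Nat.beq (c1 % p ^ 3) 0 && Nat.beq (c2 % p ^ 2) 0 && Nat.beq (c3 % p) 0) = true := h
    simp only [Bool.and_eq_true, Nat.beq_eq] at h'
    obtain ⟨a, rfl⟩ := Nat.dvd_of_mod_eq_zero h'.1.1
    obtain ⟨b, rfl⟩ := Nat.dvd_of_mod_eq_zero h'.1.2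
    obtain ⟨c, rfl⟩ := Nat.dvd_of_mod_eq_zero h'.2
    simp only [Nat.ascFactorial_zero, Nat.factorial_zero]
    push_cast
    linear_combination ((a : ZMod (p ^ 4)) * N + b * N ^ 2 + c * N ^ 3) * h4
  | succ n ih =>
    intro c0 c1 c2 c3 h
    have h' : (force (((n + 1) * c0) % p ^ 4) fun e0 =>
      force (((n + 1) * c1 + c0) % p ^ 4) fun e1 =>
      force (((n + 1) * c2 + c1) % p ^ 4) fun e2 => force (((n + 1) * c3 + c2) % p ^ 4) fun e3 =>
      loop p (p ^ 4) n e0 e1 e2 e3) = true := h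
    simp only [force_eq] at h'
    have := ih _ _ _ _ h'
    simp only [ZMod.natCast_mod] at this
    rw [Nat.ascFactorial_succ, Nat.factorial_succ]
    push_cast at this ⊢
    linear_combination this + (c3 * N ^ 4 * ((p * N + 1).ascFactorial n : ZMod (p ^ 4))) * h4

theorem loop_run : loop 16843 (16843 ^ 4) 16842 1 0 0 0 = true := by decide +kernel

theorem prime_p : Nat.Prime 16843 := by norm_num

theorem choose_mod (p k : ℕ) (hp : p.Prime) (hk : p = k + 1)
    (h : loop p (p ^ 4) k 1 0 0 0 = true) (N : ℕ) :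
    (p : ℤ) ^ 4 ∣ (((p * N + k).choose k : ℕ) : ℤ) - 1 := by
  have h1 := loop_spec p N k 1 0 0 0 h
  rw [Nat.ascFactorial_eq_factorial_mul_choose] at h1
  have hc : Nat.Coprime k.factorial (p ^ 4) :=
    Nat.Coprime.pow_right _ (((Nat.Prime.coprime_iff_not_dvd hp).2
      (by rw [hp.dvd_factorial]; omega)).symm)
  have hu : IsUnit ((k.factorial : ℕ) : ZMod (p ^ 4)) := (ZMod.isUnit_iff_coprime _ _).2 hc
  have h2 : (((p * N + k).choose k : ℕ) : ZMod (p ^ 4)) = 1 := by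
    apply hu.mul_left_cancel
    push_cast at h1 ⊢
    linear_combination h1
  have h3 : ((((p * N + k).choose k : ℕ) : ℤ) - 1 : ℤ) = (0 : ZMod (p ^ 4)) := by
    push_cast
    rw [h2, sub_self]
  have := (ZMod.intCast_zmod_eq_zero_iff_dvd _ _).1 h3
  exact_mod_cast this

theorem step (p k : ℕ) (hp : p.Prime) (hk : p = k + 1)
    (h : loop p (p ^ 4) k 1 0 0 0 = true) (n : ℕ) :
    (p : ℤ) ^ 4 ∣ d p 1 (p * n) - d p 1 n := by
  rw [d_mul_sub p 1 n _ hp.two_le le_rfl, pow_one]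
  choose H hH using choose_mod p k hp hk h
  have h1 : U p (geo 1 ^ p) = geo 1 + C ((p : ℤ) ^ 4) * PowerSeries.mk H := by
    ext N
    rw [coeff_U, map_add, coeff_C_mul, coeff_mk, ← hH, geo_one]
    conv_lhs => rw [hk, mk_one_pow_eq_mk_choose_add, ← hk]
    simp [add_comm]
  have h2 : (1 - X ^ p : PowerSeries ℤ) = expand p hp.ne_zero (1 - X) := by
    rw [map_sub, map_one, expand_X]
  rw [h2, U_mul_expand, h1]
  have h3 : genF p 1 (p * n + 1) *
      ((geo 1 + C ((p : ℤ) ^ 4) * PowerSeries.mk H) * (1 - X) - 1) =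
      C ((p : ℤ) ^ 4) * (genF p 1 (p * n + 1) * PowerSeries.mk H * (1 - X)) := by
    linear_combination genF p 1 (p * n + 1) * geo_one_mul
  rw [h3, coeff_C_mul]
  exact dvd_mul_right _ _

/-- The formula of Q1 fails (for the prime 16843, `m = 1`, `n = 1`). -/
theorem result : ¬ ∀ p m n : ℕ, p.Prime → 3 ≤ p → 1 ≤ m → m % p ≠ p - 1 → 1 ≤ n →
    emultiplicity (p : ℤ) (d p m (p ^ 2 * n) - d p m n) =
      ((padicValNat p n + 2 * padicValNat p m + 3 - (if p = 3 then 1 else 0) : ℕ) : ℕ∞) := by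
  intro h
  obtain ⟨p, hp⟩ : ∃ p, p = 16843 := ⟨_, rfl⟩
  have hpp : p.Prime := hp ▸ prime_p
  have hl : loop p (p ^ 4) 16842 1 0 0 0 = true := hp ▸ loop_run
  have h1 := h p 1 1 hpp (by omega) le_rfl (by rw [hp]; norm_num) le_rfl
  have h2 : (p : ℤ) ^ 4 ∣ d p 1 (p ^ 2 * 1) - d p 1 1 := by
    have a := step p 16842 hpp hp hl (p * 1)
    have b := step p 16842 hpp hp hl 1
    have := dvd_add a b
    rwa [sub_add_sub_cancel, ← mul_assoc, ← sq] at this
  have h3 := pow_dvd_iff_le_emultiplicity.1 h2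
  rw [h1, if_neg (by omega)] at h3
  simp only [padicValNat_one_right] at h3
  exact absurd h3 (by decide)

end Pool.Agent.Results.MP_26251e_nt.Wolstenholme
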